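import Mathlib

/-!
# Galois representations and Satake polynomials: the definitions used in the statements
-/

set_option autoImplicit false

namespace Pool.Agent.U175.DS

open NumberField Filter Topology Polynomial

attribute [local instance 10] DivisionRing.toRatAlgebra

/-- the absolute Galois group of `ℚ`, with the Krull topology -/
abbrev GQ : Type := Gal(AlgebraicClosure ℚ/ℚ)

/-- the ring of all algebraic integers -/
abbrev ZBar : Type := 𝓞 (AlgebraicClosure ℚ)

section
variable {k : Type*} [Field k] {n : ℕ}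

/-- `ρ` is unramified at the prime number `p` and its values at the geometric Frobenius elements at `p`
(those which induce the inverse of `x ↦ x ^ p` on the residue field of a maximal ideal above `p`) have the
characteristic polynomial `f`. -/
def Corresponds (ρ : GQ →* GL (Fin n) k) (p : ℕ) (f : k[X]) : Prop :=
  ∀ P : Ideal ZBar, P.IsMaximal → (p : ZBar) ∈ P →
    (∀ τ : GQ, (∀ x : ZBar, τ • x - x ∈ P) → ρ τ = 1) ∧
    ∀ σ : GQ, (∀ x : ZBar, x - (σ • x) ^ p ∈ P) → (ρ σ : Matrix (Fin n) (Fin n) k).charpoly = f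

/-- every stable subspace has a stable complement -/
def Semisimple (ρ : GQ →* GL (Fin n) k) : Prop :=
  ∀ W : Submodule k (Fin n → k),
    (∀ g, ∀ x ∈ W, (ρ g : Matrix (Fin n) (Fin n) k).mulVec x ∈ W) →
    ∃ W' : Submodule k (Fin n → k),
      (∀ g, ∀ x ∈ W', (ρ g : Matrix (Fin n) (Fin n) k).mulVec x ∈ W') ∧ IsCompl W W'

end

/-- **The systems of polynomials considered.** Let `π` be an algebraic cuspidal representation of `GL_n`
over `ℚ`, unramified outside of the finite set `B` of primes, whose exponents `p_i`, `q_i` are all zero,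
and let `f p`, for `p ∉ B`, be the polynomial `∏ (X - α)` over the Satake parameters `α` of `π_p` (in
Clozel's normalisation). The structure asks that the coefficients of the `f p` are integers of a number
field `K` and that, for the sum `a_p` of the Satake parameters, the mean values of `|σ (a_p)| ^ 2` over
the primes `p ≤ x` are bounded by the same number for arbitrarily large `x`, simultaneously for all the
embeddings `σ` of `K`. (If the conjugates of `π` are cuspidal automorphic representations, then these
mean values tend to `1`, by the theory of Rankin and Selberg.) -/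
structure IntegralSystem (K : Type) [Field K] [NumberField K] (n : ℕ) (B : Set ℕ)
    (f : ℕ → (𝓞 K)[X]) : Prop where
  pos : 0 < n
  finite : B.Finite
  meanSquare : ∃ C : ℝ, ∃ᶠ x : ℕ in atTop, ∀ σ : K →+* ℂ,
    ∑ᶠ p ∈ {p : ℕ | p ≤ x ∧ p.Prime ∧ p ∉ B}, ‖σ ((f p).coeff (n - 1))‖ ^ 2 ≤
      C * Nat.primeCounting x

/-- the polynomial with complex coefficients -/
noncomputable def toC {K : Type} [Field K] [NumberField K] (σ₀ : K →+* ℂ) (f : (𝓞 K)[X]) : ℂ[X] :=
  f.map (σ₀.comp (algebraMap (𝓞 K) K))

/-- **The conclusion of the conjecture for `ℓ` and `ι`.** There is a continuous semisimple `ℓ`-adic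
representation which corresponds to the polynomials `f p`, transported by `ι`, at all the primes
`p ∉ B` other than `ℓ`. -/
def HasLadic {K : Type} [Field K] [NumberField K] (n : ℕ) (B : Set ℕ) (f : ℕ → (𝓞 K)[X])
    (σ₀ : K →+* ℂ) (ℓ : ℕ) [Fact ℓ.Prime] (ι : PadicAlgCl ℓ ≃+* ℂ) : Prop :=
  ∃ ρ : GQ →* GL (Fin n) (PadicAlgCl ℓ), Continuous ρ ∧ Semisimple ρ ∧
    ∀ p, p.Prime → p ∉ B → p ≠ ℓ →
      Corresponds ρ p ((toC σ₀ (f p)).map (ι.symm : ℂ →+* PadicAlgCl ℓ))

/-- There is a representation with open kernel (hence finite image) with complex coefficients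
corresponding to the polynomials at all the primes `p ∉ B`. -/
def HasArtin {K : Type} [Field K] [NumberField K] (n : ℕ) (B : Set ℕ) (f : ℕ → (𝓞 K)[X])
    (σ₀ : K →+* ℂ) : Prop :=
  ∃ R : GQ →* GL (Fin n) ℂ, IsOpen (R.ker : Set GQ) ∧
    ∀ p, p.Prime → p ∉ B → Corresponds R p (toC σ₀ (f p))

/-- There is a semisimple representation in characteristic `ℓ`, with open kernel, corresponding to the
polynomials `f p` modulo a prime ideal above `ℓ`, at all the primes `p ∉ B` other than `ℓ`. -/
def HasModular {K : Type} [Field K] [NumberField K] (n : ℕ) (B : Set ℕ) (f : ℕ → (𝓞 K)[X])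
    (ℓ : ℕ) : Prop :=
  ∃ (k : Type) (_ : Field k) (_ : CharP k ℓ) (φ : 𝓞 K →+* k) (ρ : GQ →* GL (Fin n) k),
    IsOpen (ρ.ker : Set GQ) ∧ Semisimple ρ ∧
      ∀ p, p.Prime → p ∉ B → p ≠ ℓ → Corresponds ρ p ((f p).map φ)

end Pool.Agent.U175.DS
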