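import Pool.Agent.U175.DS.Main
import Pool.Agent.R401.Avg

/-!
# Change of the coefficient field, and representations for two primes
-/

set_option autoImplicit false
set_option maxHeartbeats 400000

namespace Pool.Agent.U175.DS

open NumberField Filter Topology Polynomial
open Pool.Agent.W569.FM Pool.Agent.R401.Dens Pool.Agent.R401.RS Pool.Agent.R401.Img
open Pool.Agent.R401 Pool.Agent.R401.DS Pool.Agent

section base

variable {k k' : Type*} [Field k] [Field k'] {n : ℕ}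

/-- the representation with coefficients in a larger field -/
noncomputable def bc (j : k →+* k') (ρ : GF ℚ →* GL (Fin n) k) : GF ℚ →* GL (Fin n) k' :=
  (Matrix.GeneralLinearGroup.map j).comp ρ

theorem mt_bc (j : k →+* k') (ρ : GF ℚ →* GL (Fin n) k) (g : GF ℚ) :
    Img.mt (bc j ρ) g = (Img.mt ρ g).map j := rfl

theorem ker_bc (j : k →+* k') (ρ : GF ℚ →* GL (Fin n) k) : (bc j ρ).ker = ρ.ker := by
  ext g
  rw [MonoidHom.mem_ker, MonoidHom.mem_ker]
  constructor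
  · intro h
    apply Units.ext
    apply Matrix.map_injective j.injective
    have h1 : Img.mt (bc j ρ) g = 1 := by
      unfold Img.mt
      rw [h, Units.val_one]
    rw [mt_bc] at h1
    change (Img.mt ρ g).map j = (1 : Matrix (Fin n) (Fin n) k).map j
    rw [h1, Matrix.map_one _ (map_zero _) (map_one _)]
  · intro h
    change (Matrix.GeneralLinearGroup.map j) (ρ g) = 1
    rw [h, map_one]

theorem att_bc (j : k →+* k') {ρ : GF ℚ →* GL (Fin n) k} {p : ℕ} {f : k[X]} (h : Att ρ p f) :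
    Att (bc j ρ) p (f.map j) := by
  constructor
  · intro Q hQ hp g hg
    change (Matrix.GeneralLinearGroup.map j) (ρ g) = 1
    rw [h.unr Q hQ hp g hg, map_one]
  · intro Q hQ hp g hg
    rw [mt_bc, Matrix.charpoly_map, h.frob Q hQ hp g hg]

/-- a finite exponent for the image -/
theorem exists_exp (ρ : GF ℚ →* GL (Fin n) k) (hker : IsOpen (ρ.ker : Set (GF ℚ))) :
    ∃ e : ℕ, 0 < e ∧ ∀ g, (Img.mt ρ g) ^ e = 1 := by
  have hfin : Finite (GF ℚ ⧸ ρ.ker) := Subgroup.quotient_finite_of_isOpen _ hker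
  refine ⟨Nat.card (GF ℚ ⧸ ρ.ker), Nat.card_pos, fun g => ?_⟩
  have h8 : (ρ g) ^ Nat.card (GF ℚ ⧸ ρ.ker) = 1 := by
    rw [← map_pow, ← MonoidHom.mem_ker, ← QuotientGroup.eq_one_iff, QuotientGroup.mk_pow]
    exact pow_card_eq_one'
  have h10 := congrArg Units.val h8
  rw [Units.val_pow_eq_pow_val, Units.val_one] at h10
  exact h10

/-- the eigenvalues are roots of unity -/
theorem root_pow (ρ : GF ℚ →* GL (Fin n) k) {e : ℕ} (he : ∀ g, (Img.mt ρ g) ^ e = 1) {g : GF ℚ}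
    {α : k} (h : (Img.mt ρ g).charpoly.eval α = 0) : α ^ e = 1 := by
  have h1 : α ∈ spectrum k (Img.mt ρ g) := Matrix.mem_spectrum_iff_isRoot_charpoly.2 h
  have h2 := spectrum.subset_polynomial_aeval (Img.mt ρ g) (X ^ e : k[X]) ⟨α, h1, rfl⟩
  rw [map_pow, aeval_X, he g] at h2
  have h3 : ((fun x => eval x (X ^ e : k[X])) α) = α ^ e := by simp
  rw [h3] at h2
  by_cases hn : Nontrivial (Matrix (Fin n) (Fin n) k)
  · rw [spectrum.one_eq] at h2
    exact h2
  · rw [not_nontrivial_iff_subsingleton] at hn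
    rw [spectrum.of_subsingleton] at h1
    exact absurd h1 (Set.notMem_empty _)

end base

/-- finite image from one prime -/
theorem one_prime {K : Type} [Field K] [NumberField K] {n : ℕ} (hn : 0 < n) {B : Set ℕ}
    (hB : B.Finite) (f : ℕ → (𝓞 K)[X]) {C : ℝ}
    (hRS : ∃ᶠ x : ℕ in atTop, ∀ σ : K →+* ℂ,
      ∑ᶠ p ∈ primesUpTo B x, ‖σ ((f p).coeff (n - 1))‖ ^ 2 ≤ C * Nat.primeCounting x)
    {k : Type*} [Field k] [TopologicalSpace k] [IsTopologicalRing k] [T2Space k] [CharZero k]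
    (φ : 𝓞 K →+* k) (ρ : GF ℚ →* GL (Fin n) k) (hρ : Continuous ρ) (hss : SS ρ) {ℓ : ℕ}
    (hatt : ∀ p, p.Prime → p ∉ B → p ≠ ℓ → Att ρ p ((f p).map φ)) :
    IsOpen (ρ.ker : Set (GF ℚ)) := by
  set ε : ℝ := 1 / (2 * ((n : ℝ) ^ 2 + 1)) with hε
  have hε0 : 0 < ε := by positivity
  have hε1 : (n : ℝ) ^ 2 * ε < 1 / 2 := by
    rw [hε, mul_one_div, div_lt_div_iff₀ (by positivity) (by norm_num)]
    linarith
  obtain ⟨Y, hY, hYcnt⟩ := exists_finite B (fun p => (f p).coeff (n - 1)) hRS (half_pos hε0)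
  refine open_ker ρ hρ hss (Y := (fun y => -φ y) '' Y) (hY.image _)
    ((B ∪ {ℓ}) ∪ {p | p ∉ B ∧ (f p).coeff (n - 1) ∉ Y}) (by
    intro p hp hpX P hP hpP g hg
    simp only [Set.mem_union, not_or, Set.mem_singleton_iff, Set.mem_ofPred_eq, not_and,
      not_not] at hpX
    obtain ⟨⟨hpB, hpℓ⟩, hpY⟩ := hpX
    refine ⟨_, hpY hpB, ?_⟩
    have h2 := (hatt p hp hpB hpℓ).frob P hP.isPrime hpP g hg
    have : Nonempty (Fin n) := ⟨⟨0, hn⟩⟩
    rw [Matrix.trace_eq_neg_charpoly_coeff, h2, coeff_map, Fintype.card_fin]) hε0.le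
    (hε1.trans (by norm_num))
    (freq_union (hB.union (Set.finite_singleton _)) _ hε0 hYcnt)

/-- two representations with open kernels in characteristic zero which correspond to the same
polynomials at almost all primes correspond to them at the same primes -/
theorem transfer {k : Type*} [Field k] [CharZero k] {n : ℕ} {B : Set ℕ} (hB : B.Finite)
    (f : ℕ → k[X]) (R₁ R₂ : GF ℚ →* GL (Fin n) k) (h₁ : IsOpen (R₁.ker : Set (GF ℚ)))
    (h₂ : IsOpen (R₂.ker : Set (GF ℚ))) {ℓ₁ ℓ₂ : ℕ} (hne : ℓ₁ ≠ ℓ₂)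
    (hatt₁ : ∀ p, p.Prime → p ∉ B → p ≠ ℓ₁ → Att R₁ p (f p))
    (hatt₂ : ∀ p, p.Prime → p ∉ B → p ≠ ℓ₂ → Att R₂ p (f p)) :
    ∀ p, p.Prime → p ∉ B → Att R₁ p (f p) := by
  have hopen : IsOpen ((R₁.ker ⊓ R₂.ker : Subgroup (GF ℚ)) : Set (GF ℚ)) := h₁.inter h₂
  obtain ⟨e, he0, he⟩ := exists_exp R₁ h₁
  -- a Frobenius element at another prime in the same class
  have hfr : ∀ g : GF ℚ, ∃ (p : ℕ), p.Prime ∧ p ∉ B ∧ p ≠ ℓ₁ ∧ p ≠ ℓ₂ ∧
      (Img.mt R₁ g⁻¹).charpoly = f p ∧ (Img.mt R₂ g⁻¹).charpoly = f p := by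
    intro g
    obtain ⟨p, P, σ, hp, hpB, hP, hpP, hσ, hgσ⟩ := exists_frob (R₁.ker ⊓ R₂.ker) hopen
      (B := B ∪ {ℓ₁, ℓ₂}) (hB.union (Set.toFinite _)) g
    simp only [Set.mem_union, Set.mem_insert_iff, Set.mem_singleton_iff, not_or] at hpB
    obtain ⟨hpB, hp1, hp2⟩ := hpB
    obtain ⟨h3, h4⟩ := Subgroup.mem_inf.1 hgσ
    rw [MonoidHom.mem_ker, map_mul, map_inv, inv_mul_eq_one] at h3 h4
    refine ⟨p, hp, hpB, hp1, hp2, ?_, ?_⟩
    · rw [← (hatt₁ p hp hpB hp1).frob P hP.isPrime hpP σ hσ]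
      unfold Img.mt
      rw [map_inv, map_inv, h3]
    · rw [← (hatt₂ p hp hpB hp2).frob P hP.isPrime hpP σ hσ]
      unfold Img.mt
      rw [map_inv, map_inv, h4]
  intro p hp hpB
  by_cases hpℓ : p = ℓ₁
  · have hp2 : p ≠ ℓ₂ := by rw [hpℓ]; exact hne
    have hA := hatt₂ p hp hpB hp2
    constructor
    · intro Q hQ hpQ g hg
      have h5 := hA.unr Q hQ hpQ g hg
      obtain ⟨q, -, -, -, -, h6, h7⟩ := hfr g
      have h8 : Img.mt R₂ g⁻¹ = 1 := by
        unfold Img.mt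
        rw [map_inv, h5, inv_one, Units.val_one]
      rw [h8, Matrix.charpoly_one, Fintype.card_fin] at h7
      rw [← h7] at h6
      have h9 : Img.mt R₁ g⁻¹ = 1 :=
        eq_one_of_charpoly h6 (e := e) (Nat.cast_ne_zero.2 he0.ne') (he _)
      have h10 : R₁ g⁻¹ = 1 := Units.ext h9
      rw [map_inv, inv_eq_one] at h10
      exact h10
    · intro Q hQ hpQ g hg
      obtain ⟨q, -, -, -, -, h6, h7⟩ := hfr g
      rw [h6, ← h7, hA.frob Q hQ hpQ g hg]
  · exact hatt₁ p hp hpB hpℓ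

end Pool.Agent.U175.DS
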