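import Pool.Agent.R401.DS
import Pool.Agent.R401.Eng

/-!
# Bounds for the image of a Galois representation, with lower densities
-/

set_option autoImplicit false
set_option maxHeartbeats 400000

namespace Pool.Agent.U175.DS

open NumberField Filter Topology IsDedekindDomain Polynomial Module
open Pool.Agent.W401.Cheb Pool.Agent.W569.FM Pool.Agent.R401.Dens Pool.Agent.R401.RS
open Pool.Agent.R401.Img Pool.Agent.R401 Pool.Agent

/-- from rational primes to places of `ℚ` -/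
theorem dens_le_cnt (Good : Set (GF ℚ)) (X : Set ℕ)
    (hX : ∀ p : ℕ, p.Prime → p ∉ X → ∀ P : Ideal (OO ℚ), P.IsMaximal → (p : OO ℚ) ∈ P →
      ∀ g, FrobAt p P g → g ∈ Good) {θ : ℝ} {N : ℕ} (hN : 0 < Nat.primeCounting N)
    (h : (cnt X N : ℝ) ≤ θ * Nat.primeCounting N) :
    dens (fun v : HeightOneSpectrum (𝓞 ℚ) => ∃ g, IsFrob v g ∧ g ∉ Good) N ≤ θ := by
  have key : ∀ v : HeightOneSpectrum (𝓞 ℚ), (∃ g, IsFrob v g ∧ g ∉ Good) →
      v.asIdeal = W571.FM.pl (Ideal.absNorm v.asIdeal) ∧ (Ideal.absNorm v.asIdeal).Prime ∧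
        Ideal.absNorm v.asIdeal ∈ X := by
    rintro v ⟨σ, ⟨Q, hQ, hQv, hσ⟩, hσC⟩
    obtain ⟨q, hq, hqQ⟩ := W569.FM.exists_char Q hQ
    have h2 : v.asIdeal = W571.FM.pl q := by
      rw [← hQv]
      exact W571.FM.cm_eq hq hQ hqQ
    have h3 : Ideal.absNorm v.asIdeal = q := by rw [h2, W571.FM.absNorm_pl]
    rw [h3] at hσ ⊢
    refine ⟨h2, hq, ?_⟩
    by_contra hqX
    exact hσC (hX q hq hqX Q hQ hqQ σ hσ)
  unfold dens
  have h3 : Nat.card {v : HeightOneSpectrum (𝓞 ℚ) // Ideal.absNorm v.asIdeal ≤ N ∧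
      ∃ g, IsFrob v g ∧ g ∉ Good} ≤ cnt X N := by
    have hfin := finite_sub X N
    unfold cnt
    have key2 : ∀ v : {v : HeightOneSpectrum (𝓞 ℚ) // Ideal.absNorm v.asIdeal ≤ N ∧
        ∃ g, IsFrob v g ∧ g ∉ Good}, Ideal.absNorm v.1.asIdeal ≤ N ∧
          (Ideal.absNorm v.1.asIdeal).Prime ∧ Ideal.absNorm v.1.asIdeal ∈ X :=
      fun v => ⟨v.2.1, (key v.1 v.2.2).2⟩
    refine Nat.card_le_card_of_injective (fun v : {v : HeightOneSpectrum (𝓞 ℚ) //
        Ideal.absNorm v.asIdeal ≤ N ∧ ∃ g, IsFrob v g ∧ g ∉ Good} =>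
      (⟨Ideal.absNorm v.1.asIdeal, key2 v⟩ : {p : ℕ // p ≤ N ∧ p.Prime ∧ p ∈ X})) ?_
    intro v w hvw
    apply Subtype.ext
    apply HeightOneSpectrum.ext
    have h4 : Ideal.absNorm v.1.asIdeal = Ideal.absNorm w.1.asIdeal := congrArg Subtype.val hvw
    rw [(key v.1 v.2.2).1, (key w.1 w.2.2).1, h4]
  have h4 : (0 : ℝ) < (Nat.primeCounting N : ℝ) := by exact_mod_cast hN
  rw [div_le_iff₀ h4]
  exact le_trans (by exact_mod_cast h3) h

section cosets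

variable {k : Type*} [Field k] {n : ℕ}

/-- the elements all whose translates have traces in `Y` lie in few cosets of the kernel -/
theorem exists_reps (ρ : GF ℚ →* GL (Fin n) k) {m : ℕ} (e : Fin m → GF ℚ)
    (hsep : ∀ a b : GF ℚ, (∀ j, (mt ρ (a * e j)).trace = (mt ρ (b * e j)).trace) → ρ a = ρ b)
    {Y : Set k} (hY : Y.Finite) :
    ∃ A : Finset (GF ℚ), A.card ≤ Y.ncard ^ m ∧
      ∀ g : GF ℚ, (∀ j, (mt ρ (g * (e j)⁻¹)⁻¹).trace ∈ Y) → ∃ a ∈ A, a⁻¹ * g ∈ ρ.ker := by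
  classical
  have hYf : Finite Y := hY
  have hYF : Fintype Y := Fintype.ofFinite Y
  set S : Set (Fin m → Y) := {y | ∃ g : GF ℚ, ∀ j, (mt ρ (g * (e j)⁻¹)⁻¹).trace = y j} with hS
  choose! r hr using (fun (y : Fin m → Y) (hy : y ∈ S) => hy)
  refine ⟨(Finset.univ.filter (fun y => y ∈ S)).image r, ?_, fun g hg => ?_⟩
  · refine Finset.card_image_le.trans ((Finset.card_le_univ _).trans ?_)
    rw [Fintype.card_fun, Fintype.card_fin, ← Nat.card_eq_fintype_card, Nat.card_coe_set_eq]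
  · set y : Fin m → Y := fun j => ⟨_, hg j⟩ with hy
    have hyS : y ∈ S := ⟨g, fun j => rfl⟩
    refine ⟨r y, Finset.mem_image_of_mem _ (Finset.mem_filter.2 ⟨Finset.mem_univ _, hyS⟩), ?_⟩
    have h1 : ρ (r y)⁻¹ = ρ g⁻¹ := by
      apply hsep
      intro j
      have h2 : (mt ρ (r y * (e j)⁻¹)⁻¹).trace = (mt ρ (g * (e j)⁻¹)⁻¹).trace :=
        (hr y hyS j).trans rfl
      rw [mul_inv_rev, mul_inv_rev, inv_inv] at h2
      rw [mt_mul, Matrix.trace_mul_comm, ← mt_mul, h2, mt_mul, Matrix.trace_mul_comm, ← mt_mul]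
    rw [MonoidHom.mem_ker, map_mul, h1, map_inv, inv_mul_cancel]

theorem good_conj (ρ : GF ℚ →* GL (Fin n) k) (Y : Set k) :
    ∀ g ∈ {g : GF ℚ | (mt ρ g⁻¹).trace ∈ Y}, ∀ x : GF ℚ,
      x * g * x⁻¹ ∈ {g : GF ℚ | (mt ρ g⁻¹).trace ∈ Y} := by
  intro g hg x
  change (mt ρ (x * g * x⁻¹)⁻¹).trace ∈ Y
  have h2 : (x * g * x⁻¹)⁻¹ = x * (g⁻¹ * x⁻¹) := by group
  rw [h2, mt_mul, Matrix.trace_mul_comm, ← mt_mul, inv_mul_cancel_right]
  exact hg

theorem exists_sep (hk : ∀ m : ℕ, 0 < m → m ≤ n → (m : k) ≠ 0) (ρ : GF ℚ →* GL (Fin n) k)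
    (hss : SS ρ) : ∃ (m : ℕ) (e : Fin m → GF ℚ), m ≤ n ^ 2 ∧
      ∀ a b : GF ℚ, (∀ j, (mt ρ (a * e j)).trace = (mt ρ (b * e j)).trace) → ρ a = ρ b := by
  have hk' : ∀ m : ℕ, 0 < m → m ≤ finrank k (Fin n → k) → (m : k) ≠ 0 := by
    intro m h1 h2
    rw [finrank_fin_fun] at h2
    exact hk m h1 h2
  obtain ⟨m, e, hm, -, hsep⟩ := Burn.exists_family hk' (act ρ) (fun W hW => hss.act W hW)
  rw [finrank_fin_fun] at hm
  refine ⟨m, e, hm, fun a b h => act_inj (hsep a b fun j => ?_)⟩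
  rw [trace_act, trace_act]
  exact h j

/-- **Bounded image**, open kernel. -/
theorem bound (hk : ∀ m : ℕ, 0 < m → m ≤ n → (m : k) ≠ 0) (ρ : GF ℚ →* GL (Fin n) k)
    (hker : IsOpen (ρ.ker : Set (GF ℚ))) (hss : SS ρ) {Y : Set k} (hY : Y.Finite) (X : Set ℕ)
    (hX : ∀ p : ℕ, p.Prime → p ∉ X → ∀ P : Ideal (OO ℚ), P.IsMaximal → (p : OO ℚ) ∈ P →
      ∀ g, FrobAt p P g → (mt ρ g⁻¹).trace ∈ Y) {θ : ℝ} (hθ0 : 0 ≤ θ) (hθ : n ^ 2 * θ < 1)
    (hε : ∃ᶠ N : ℕ in atTop, (cnt X N : ℝ) ≤ θ * Nat.primeCounting N) :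
    (1 - n ^ 2 * θ) * Nat.card (GF ℚ ⧸ ρ.ker) ≤ (Y.ncard + 1) ^ (n ^ 2) := by
  classical
  obtain ⟨m, e, hm, hsep⟩ := exists_sep hk ρ hss
  obtain ⟨A, hA, hreps⟩ := exists_reps ρ e hsep hY
  set Good : Set (GF ℚ) := {g : GF ℚ | (mt ρ g⁻¹).trace ∈ Y} with hGood
  have hcl : IsClosed Good := by
    rw [← isOpen_compl_iff]
    rw [isOpen_iff_mem_nhds]
    intro x hx
    have h1 : (fun g => x⁻¹ * g) ⁻¹' (ρ.ker : Set (GF ℚ)) ∈ 𝓝 x := by
      apply (hker.preimage (continuous_const_mul _)).mem_nhds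
      change x⁻¹ * x ∈ ρ.ker
      rw [inv_mul_cancel]
      exact one_mem _
    refine Filter.mem_of_superset h1 fun g hg => ?_
    have h2 : x⁻¹ * g ∈ ρ.ker := hg
    rw [MonoidHom.mem_ker, map_mul, map_inv, inv_mul_eq_one] at h2
    intro hgG
    apply hx
    change (mt ρ x⁻¹).trace ∈ Y
    have h3 : mt ρ x⁻¹ = mt ρ g⁻¹ := by
      unfold Img.mt
      rw [map_inv, map_inv, h2]
    rw [h3]
    exact hgG
  have h1 := Eng.engine Good hcl (good_conj ρ Y) (θ := θ) (by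
    refine (hε.and_eventually (Nat.tendsto_primeCounting.eventually_gt_atTop 0)).mono ?_
    rintro N ⟨h1, h2⟩
    exact dens_le_cnt Good X hX h2 h1) (fun j => (e j)⁻¹) ρ.ker hker A hreps
  have h2 : (m : ℝ) ≤ n ^ 2 := by exact_mod_cast hm
  have h3 : (ρ.ker.index : ℝ) = Nat.card (GF ℚ ⧸ ρ.ker) := rfl
  rw [h3] at h1
  have h4 : (A.card : ℝ) ≤ (Y.ncard + 1) ^ (n ^ 2) := by
    have h5 : A.card ≤ (Y.ncard + 1) ^ (n ^ 2) :=
      hA.trans ((Nat.pow_le_pow_left (Nat.le_succ _) _).trans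
        (Nat.pow_le_pow_right (Nat.succ_pos _) hm))
    exact_mod_cast h5
  refine le_trans ?_ (h1.trans h4)
  apply mul_le_mul_of_nonneg_right _ (Nat.cast_nonneg _)
  have := mul_le_mul_of_nonneg_right h2 hθ0
  linarith

/-- **Finite image** of a continuous representation in characteristic zero. -/
theorem open_ker [TopologicalSpace k] [IsTopologicalRing k] [T2Space k] [CharZero k]
    (ρ : GF ℚ →* GL (Fin n) k)
    (hρ : Continuous ρ) (hss : SS ρ) {Y : Set k} (hY : Y.Finite) (X : Set ℕ)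
    (hX : ∀ p : ℕ, p.Prime → p ∉ X → ∀ P : Ideal (OO ℚ), P.IsMaximal → (p : OO ℚ) ∈ P →
      ∀ g, FrobAt p P g → (mt ρ g⁻¹).trace ∈ Y) {θ : ℝ} (hθ0 : 0 ≤ θ) (hθ : n ^ 2 * θ < 1)
    (hε : ∃ᶠ N : ℕ in atTop, (cnt X N : ℝ) ≤ θ * Nat.primeCounting N) :
    IsOpen (ρ.ker : Set (GF ℚ)) := by
  classical
  obtain ⟨m, e, hm, hsep⟩ := exists_sep (fun m h1 _ => Nat.cast_ne_zero.2 h1.ne') ρ hss
  obtain ⟨A, hA, hreps⟩ := exists_reps ρ e hsep hY
  have hcm : Continuous fun g => mt ρ g := Units.continuous_val.comp hρ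
  have hcl : IsClosed {g : GF ℚ | (mt ρ g⁻¹).trace ∈ Y} := by
    have h1 : Continuous fun g : GF ℚ => (mt ρ g⁻¹).trace :=
      (continuous_id.matrix_trace).comp (hcm.comp continuous_inv)
    exact hY.isClosed.preimage h1
  have hkcl : IsClosed (ρ.ker : Set (GF ℚ)) := by
    have h1 : (ρ.ker : Set (GF ℚ)) = (fun g => mt ρ g) ⁻¹' {1} := by
      ext g
      constructor
      · intro h
        have h2 : ρ g = 1 := h
        change mt ρ g = 1
        unfold Img.mt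
        rw [h2, Units.val_one]
      · intro h
        exact Units.ext (show ((ρ g : GL (Fin n) k) : Matrix (Fin n) (Fin n) k) = 1 from h)
    rw [h1]
    exact isClosed_singleton.preimage hcm
  have h2 : (m : ℝ) ≤ n ^ 2 := by exact_mod_cast hm
  exact Eng.isOpen_of_cosets {g : GF ℚ | (mt ρ g⁻¹).trace ∈ Y} hcl (good_conj ρ Y) (θ := θ) (by
    refine (hε.and_eventually (Nat.tendsto_primeCounting.eventually_gt_atTop 0)).mono ?_
    rintro N ⟨h1, h2⟩
    exact dens_le_cnt _ X hX h2 h1)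
    (lt_of_le_of_lt (mul_le_mul_of_nonneg_right h2 hθ0) hθ) (fun j => (e j)⁻¹) ρ.ker hkcl A hreps

end cosets

section rs

variable {K : Type*} [Field K] [NumberField K]

/-- Mean squares bounded for arbitrarily large `x`: outside of a set of small lower density there are
finitely many traces. -/
theorem exists_finite (B : Set ℕ) (t : ℕ → 𝓞 K) {C : ℝ}
    (h : ∃ᶠ x : ℕ in atTop, ∀ σ : K →+* ℂ,
      ∑ᶠ p ∈ primesUpTo B x, ‖σ (t p)‖ ^ 2 ≤ C * Nat.primeCounting x) {ε : ℝ} (hε : 0 < ε) :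
    ∃ Y : Set (𝓞 K), Y.Finite ∧
      ∃ᶠ x : ℕ in atTop, (cnt {p | p ∉ B ∧ t p ∉ Y} x : ℝ) ≤ ε * Nat.primeCounting x := by
  classical
  set D : ℝ := Fintype.card (K →+* ℂ) * |C| + 1 with hD
  have hD0 : 0 < D := by positivity
  set M : ℝ := Real.sqrt (D / ε) with hM
  have hM0 : 0 ≤ M := Real.sqrt_nonneg _
  have hM2 : M ^ 2 = D / ε := Real.sq_sqrt (by positivity)
  refine ⟨{y : 𝓞 K | ∀ σ : K →+* ℂ, ‖σ y‖ ≤ M}, ?_, h.mono fun x hx => ?_⟩
  · have h1 := Embeddings.finite_of_norm_le K ℂ M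
    refine Set.Finite.of_finite_image (f := fun y : 𝓞 K => (y : K)) (h1.subset ?_)
      (fun a _ b _ hab => RingOfIntegers.ext hab)
    rintro _ ⟨y, hy, rfl⟩
    exact ⟨y.isIntegral_coe, hy⟩
  · set s : Finset ℕ := (finite_primesUpTo B x).toFinset with hs
    have hsum : ∀ σ : K →+* ℂ, ∑ p ∈ s, ‖σ (t p)‖ ^ 2 ≤ |C| * Nat.primeCounting x := by
      intro σ
      have h1 := hx σ
      rw [finsum_mem_eq_finite_toFinset_sum _ (finite_primesUpTo B x)] at h1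
      exact h1.trans (mul_le_mul_of_nonneg_right (le_abs_self _) (Nat.cast_nonneg _))
    have htot : ∑ p ∈ s, ∑ σ : K →+* ℂ, ‖σ (t p)‖ ^ 2 ≤ D * Nat.primeCounting x := by
      rw [Finset.sum_comm]
      refine (Finset.sum_le_sum fun σ _ => hsum σ).trans ?_
      rw [Finset.sum_const, Finset.card_univ, nsmul_eq_mul, ← mul_assoc]
      apply mul_le_mul_of_nonneg_right _ (Nat.cast_nonneg _)
      rw [hD]
      linarith
    set s' : Finset ℕ := s.filter fun p => ¬ ∀ σ : K →+* ℂ, ‖σ (t p)‖ ≤ M with hs'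
    have hcnt : cnt {p | p ∉ B ∧ t p ∉ {y : 𝓞 K | ∀ σ : K →+* ℂ, ‖σ y‖ ≤ M}} x = s'.card := by
      unfold cnt
      refine Nat.subtype_card s' fun p => ?_
      rw [hs', Finset.mem_filter, hs, Set.Finite.mem_toFinset]
      simp only [primesUpTo, Set.mem_ofPred_eq]
      tauto
    rw [hcnt]
    have h1 : (s'.card : ℝ) * M ^ 2 ≤ D * Nat.primeCounting x := by
      refine le_trans ?_ htot
      rw [← nsmul_eq_mul, ← Finset.sum_const]
      refine (Finset.sum_le_sum (fun p hp => ?_)).trans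
        (Finset.sum_le_sum_of_subset_of_nonneg (Finset.filter_subset _ _)
          fun _ _ _ => Finset.sum_nonneg fun _ _ => by positivity)
      rw [hs', Finset.mem_filter] at hp
      obtain ⟨σ, hσ⟩ := not_forall.1 hp.2
      rw [not_le] at hσ
      refine le_trans ?_ (Finset.single_le_sum (f := fun σ : K →+* ℂ => ‖σ (t p)‖ ^ 2)
          (fun _ _ => by positivity) (Finset.mem_univ σ))
      exact pow_le_pow_left₀ hM0 hσ.le 2
    rw [hM2] at h1
    have h3 : (s'.card : ℝ) * (D / ε) = D * (s'.card / ε) := by ring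
    rw [h3] at h1
    have h4 := le_of_mul_le_mul_left h1 hD0
    rw [div_le_iff₀ hε] at h4
    linarith

end rs

end Pool.Agent.U175.DS
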