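import Pool.Agent.U175.DS.Fin
import Pool.Agent.U175.DS.Defs
import Pool.Agent.R401.Iso

/-!
# Systems of Satake polynomials: Artin representations from modular or `ℓ`-adic ones
-/

set_option autoImplicit false
set_option maxHeartbeats 400000

namespace Pool.Agent.U175.DS

open NumberField Filter Topology Polynomial
open Pool.Agent.W569.FM Pool.Agent.R401.Dens Pool.Agent.R401.RS Pool.Agent.R401.Img
open Pool.Agent.R401 Pool.Agent.R401.DS Pool.Agent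

attribute [local instance 10] DivisionRing.toRatAlgebra

section
variable {k : Type*} [Field k] {n : ℕ}

theorem semisimple_iff (ρ : GQ →* GL (Fin n) k) : Semisimple ρ ↔ SS ρ := Iff.rfl

theorem isMaximal_of {p : ℕ} (hp : p.Prime) {Q : Ideal ZBar} (hQ : Q.IsPrime)
    (hpQ : (p : ZBar) ∈ Q) : Q.IsMaximal := by
  have h1 : (Q.comap (algebraMap ℤ ZBar)).IsPrime := hQ.comap _
  have h2 : (p : ℤ) ∈ Q.comap (algebraMap ℤ ZBar) := by
    rw [Ideal.mem_comap, map_natCast]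
    exact hpQ
  have h3 : Q.comap (algebraMap ℤ ZBar) ≠ ⊥ := by
    intro h
    rw [h, Ideal.mem_bot] at h2
    exact hp.ne_zero (by exact_mod_cast h2)
  have h4 : (Q.comap (algebraMap ℤ ZBar)).IsMaximal := h1.isMaximal h3
  exact Ideal.isMaximal_of_isIntegral_of_isMaximal_comap Q h4

theorem att_iff {ρ : GQ →* GL (Fin n) k} {p : ℕ} (hp : p.Prime) {f : k[X]} :
    Corresponds ρ p f ↔ Att ρ p f := by
  constructor
  · intro h
    constructor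
    · intro Q hQ hpQ g hg
      exact (h Q (isMaximal_of hp hQ hpQ) hpQ).1 g hg
    · intro Q hQ hpQ g hg
      refine (h Q (isMaximal_of hp hQ hpQ) hpQ).2 g⁻¹ fun x => ?_
      have h1 := hg (g⁻¹ • x)
      rwa [smul_inv_smul] at h1
  · intro h P hP hpP
    refine ⟨fun τ hτ => h.unr P hP.isPrime hpP τ hτ, fun σ hσ => ?_⟩
    have h1 := h.frob P hP.isPrime hpP σ⁻¹ (fun x => by
      have h2 := hσ (σ⁻¹ • x)
      rwa [smul_inv_smul] at h2)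
    have h3 : (σ⁻¹)⁻¹ = σ := inv_inv σ
    rw [h3] at h1
    exact h1

end

section
variable {K : Type} [Field K] [NumberField K] {n : ℕ} {B : Set ℕ} {f : ℕ → (𝓞 K)[X]}
  {σ₀ : K →+* ℂ}

/-- Satake parameters are roots of unity -/
theorem HasArtin.roots (h : HasArtin n B f σ₀) : ∃ e : ℕ, 0 < e ∧ ∀ p, p.Prime → p ∉ B →
    ∀ α : ℂ, (toC σ₀ (f p)).IsRoot α → α ^ e = 1 := by
  obtain ⟨R, hR, hatt⟩ := h
  obtain ⟨e, he0, he⟩ := exists_exp R hR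
  refine ⟨e, he0, fun p hp hpB α hα => ?_⟩
  obtain ⟨⟨P, h1, h2, σ, h3⟩, -⟩ := W571.FM.main p hp
  have h4 := ((att_iff hp).1 (hatt p hp hpB)).frob P h1.isPrime h2 σ h3
  refine root_pow R he (g := σ⁻¹) ?_
  rw [h4]
  exact hα

/-- all the `ℓ`-adic representations -/
theorem HasArtin.ladic (h : HasArtin n B f σ₀) (ℓ : ℕ) [Fact ℓ.Prime] (ι : PadicAlgCl ℓ ≃+* ℂ) :
    ∃ ρ : GQ →* GL (Fin n) (PadicAlgCl ℓ), Continuous ρ ∧ Semisimple ρ ∧ IsOpen (ρ.ker : Set GQ) ∧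
      ∀ p, p.Prime → p ∉ B →
        Corresponds ρ p ((toC σ₀ (f p)).map (ι.symm : ℂ →+* PadicAlgCl ℓ)) := by
  obtain ⟨R, hR, hatt⟩ := h
  have hker : IsOpen ((bc (ι.symm : ℂ →+* PadicAlgCl ℓ) R).ker : Set GQ) := by
    rw [ker_bc]
    exact hR
  exact ⟨bc (ι.symm : ℂ →+* PadicAlgCl ℓ) R, continuous_of_open _ hker, SS_of_open _ hker, hker,
    fun p hp hpB => (att_iff hp).2 (att_bc _ ((att_iff hp).1 (hatt p hp hpB)))⟩

/-- representations modulo infinitely many primes -/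
theorem hasArtin_of_modular (h : IntegralSystem K n B f) (σ₀ : K →+* ℂ)
    (hmod : {ℓ : ℕ | ℓ.Prime ∧ HasModular n B f ℓ}.Infinite) : HasArtin n B f σ₀ := by
  obtain ⟨C, hC⟩ := h.meanSquare
  obtain ⟨L, iL, iA, hfd, R, hR, hatt⟩ := main h.pos h.finite f (C := C) hC (fun N => by
    obtain ⟨ℓ, ⟨hℓ, k, ik, ic, φ, ρ, hker, hss, hc⟩, hN⟩ := hmod.exists_gt N
    exact ⟨ℓ, hN, hℓ, k, ik, ic, φ, ρ, hker, hss, fun p hp hpB hpℓ =>
      (att_iff hp).1 (hc p hp hpB hpℓ)⟩)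
  let _ : Algebra K ℂ := σ₀.toAlgebra
  let j : L →ₐ[K] ℂ := IsAlgClosed.lift
  have hj : (j : L →+* ℂ).comp (algebraMap K L) = σ₀ := by
    ext x
    exact j.commutes x
  refine ⟨bc (j : L →+* ℂ) R, ?_, fun p hp hpB => (att_iff hp).2 ?_⟩
  · rw [ker_bc]
    exact hR
  · have h1 := att_bc (j : L →+* ℂ) (hatt p hp hpB)
    rw [Polynomial.map_map, ← RingHom.comp_assoc, hj] at h1
    exact h1

/-- `ℓ`-adic representations for two primes -/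
theorem hasArtin_of_two (h : IntegralSystem K n B f) {ℓ₁ ℓ₂ : ℕ} [Fact ℓ₁.Prime] [Fact ℓ₂.Prime]
    (hne : ℓ₁ ≠ ℓ₂) {ι₁ : PadicAlgCl ℓ₁ ≃+* ℂ} {ι₂ : PadicAlgCl ℓ₂ ≃+* ℂ}
    (h₁ : HasLadic n B f σ₀ ℓ₁ ι₁) (h₂ : HasLadic n B f σ₀ ℓ₂ ι₂) : HasArtin n B f σ₀ := by
  obtain ⟨C, hC⟩ := h.meanSquare
  have key : ∀ (ℓ : ℕ) [Fact ℓ.Prime] (ι : PadicAlgCl ℓ ≃+* ℂ), HasLadic n B f σ₀ ℓ ι →
      ∃ R : GQ →* GL (Fin n) ℂ, IsOpen (R.ker : Set GQ) ∧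
        ∀ p, p.Prime → p ∉ B → p ≠ ℓ → Att R p (toC σ₀ (f p)) := by
    rintro ℓ hℓ ι ⟨ρ, hρ, hss, hc⟩
    have hatt : ∀ p, p.Prime → p ∉ B → p ≠ ℓ →
        Att ρ p ((toC σ₀ (f p)).map (ι.symm : ℂ →+* PadicAlgCl ℓ)) :=
      fun p hp hpB hpℓ => (att_iff hp).1 (hc p hp hpB hpℓ)
    have hopen := one_prime h.pos h.finite f hC
      ((ι.symm : ℂ →+* PadicAlgCl ℓ).comp (σ₀.comp (algebraMap (𝓞 K) K))) ρ hρ hss (ℓ := ℓ)
      (fun p hp hpB hpℓ => by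
        have h1 := hatt p hp hpB hpℓ
        rwa [toC, Polynomial.map_map] at h1)
    refine ⟨bc (ι : PadicAlgCl ℓ →+* ℂ) ρ, ?_, fun p hp hpB hpℓ => ?_⟩
    · rw [ker_bc]
      exact hopen
    · have h1 := att_bc (ι : PadicAlgCl ℓ →+* ℂ) (hatt p hp hpB hpℓ)
      have h2 : ((ι : PadicAlgCl ℓ →+* ℂ)).comp (ι.symm : ℂ →+* PadicAlgCl ℓ) = RingHom.id ℂ := by
        ext x
        simp
      rwa [Polynomial.map_map, h2, Polynomial.map_id] at h1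
  obtain ⟨R₁, hR₁, ha₁⟩ := key ℓ₁ ι₁ h₁
  obtain ⟨R₂, hR₂, ha₂⟩ := key ℓ₂ ι₂ h₂
  exact ⟨R₁, hR₁, fun p hp hpB =>
    (att_iff hp).2 (transfer h.finite (fun p => toC σ₀ (f p)) R₁ R₂ hR₁ hR₂ hne ha₁ ha₂ p hp hpB)⟩

end

end Pool.Agent.U175.DS
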